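import Mathlib
import Pool.Agent.TH779.Ord.Fn

/-!
# A run of `k` classes which are hit exactly once
-/

set_option autoImplicit false

namespace Pool.Agent.H35_PP

open Finset
open Pool.Agent.TH779.Ord (fn)

/-- `X` is a set of elements of `J` in different classes which is an interval of `J` -/
def Run (K : ℕ) (J X : Finset ℕ) : Prop :=
  X ⊆ J ∧ (∀ x ∈ X, ∀ y ∈ X, x / K = y / K → x = y) ∧
    ∀ x ∈ J, (∃ y ∈ X, y ≤ x) → (∃ y ∈ X, x ≤ y) → x ∈ X

theorem fn_zero (l : ℝ) : fn l 0 = 0 := by simp [fn]

theorem fn_one (l : ℝ) : fn l 1 = 1 := by simp [fn]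

theorem run_aux (K k : ℕ) (hk : 2 ≤ k) (J : Finset ℕ)
    (hcon : ¬ ∃ X : Finset ℕ, Run K J X ∧ X.card = k) (T : ℕ) :
    ∃ X : Finset ℕ, X ⊆ J ∧ (∀ x ∈ X, ∀ y ∈ X, x / K = y / K → x = y) ∧ (∀ x ∈ X, x / K < T) ∧
      (∀ x ∈ J, x / K < T → (∃ y ∈ X, y ≤ x) → x ∈ X) ∧ X.card < k ∧
      ∑ g ∈ range T, fn (((k : ℝ) + 1) / 2) (J.filter (fun x => x / K = g)).card ≤ X.card := by
  classical
  induction T with
  | zero =>
    refine ⟨∅, by simp, by simp, by simp, by simp, by simp; omega, by simp⟩
  | succ T ih =>
    obtain ⟨X, hXJ, hinj, hlt, hseg, hcard, hsum⟩ := ih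
    set N := (J.filter (fun x => x / K = T)).card with hN
    rw [sum_range_succ, ← hN]
    have hk2 : (2 : ℝ) ≤ k := by exact_mod_cast hk
    rcases Nat.lt_trichotomy N 1 with h | h | h
    · -- not hit
      have hN0 : N = 0 := by omega
      have hemp : J.filter (fun x => x / K = T) = ∅ := card_eq_zero.1 (by rw [← hN]; exact hN0)
      refine ⟨X, hXJ, hinj, fun x hx => (hlt x hx).trans (by omega), ?_, hcard, ?_⟩
      · intro x hx hxT hy
        have h1 : x / K ≠ T := by
          intro h2
          have : x ∈ J.filter (fun x => x / K = T) := mem_filter.2 ⟨hx, h2⟩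
          rw [hemp] at this
          simp at this
        exact hseg x hx (by omega) hy
      · rw [hN0, fn_zero, add_zero]
        exact hsum
    · -- hit once
      obtain ⟨z, hz⟩ := card_eq_one.1 (by rw [← hN]; exact h : (J.filter (fun x => x / K = T)).card = 1)
      have hzJ : z ∈ J ∧ z / K = T := by
        have : z ∈ J.filter (fun x => x / K = T) := by rw [hz]; simp
        exact mem_filter.1 this
      have hzX : z ∉ X := fun h1 => by
        have := hlt z h1
        omega
      have hseg' : ∀ x ∈ J, x / K < T + 1 → (∃ y ∈ insert z X, y ≤ x) → x ∈ insert z X := by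
        rintro x hx hxT ⟨y, hy, hyx⟩
        by_cases h1 : x / K = T
        · have : x ∈ J.filter (fun x => x / K = T) := mem_filter.2 ⟨hx, h1⟩
          rw [hz, mem_singleton] at this
          rw [this]
          exact mem_insert_self _ _
        · rw [mem_insert] at hy ⊢
          rcases hy with hy | hy
          · exfalso
            have h2 := Nat.div_le_div_right (c := K) hyx
            rw [hy, hzJ.2] at h2
            omega
          · exact Or.inr (hseg x hx (by omega) ⟨y, hy, hyx⟩)
      have hinj' : ∀ x ∈ insert z X, ∀ y ∈ insert z X, x / K = y / K → x = y := by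
        intro x hx y hy hxy
        rw [mem_insert] at hx hy
        rcases hx with hx | hx <;> rcases hy with hy | hy
        · rw [hx, hy]
        · exfalso
          have := hlt y hy
          rw [← hxy, hx, hzJ.2] at this
          omega
        · exfalso
          have := hlt x hx
          rw [hxy, hy, hzJ.2] at this
          omega
        · exact hinj x hx y hy hxy
      have hXJ' : insert z X ⊆ J := insert_subset hzJ.1 hXJ
      have hlt' : ∀ x ∈ insert z X, x / K < T + 1 := by
        intro x hx
        rw [mem_insert] at hx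
        rcases hx with hx | hx
        · rw [hx, hzJ.2]
          omega
        · have := hlt x hx
          omega
      have hcard' : (insert z X).card = X.card + 1 := card_insert_of_notMem hzX
      have hck : X.card + 1 ≠ k := by
        intro h1
        apply hcon
        refine ⟨insert z X, ⟨hXJ', hinj', ?_⟩, by rw [hcard', h1]⟩
        rintro x hx hy ⟨y', hy', hxy'⟩
        refine hseg' x hx ?_ hy
        have h2 := Nat.div_le_div_right (c := K) hxy'
        have h3 := hlt' y' hy'
        omega
      refine ⟨insert z X, hXJ', hinj', hlt', hseg', by omega, ?_⟩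
      rw [hcard', h, fn_one]
      push_cast
      linarith
    · -- hit more than once
      refine ⟨∅, by simp, by simp, by simp, by simp, by simp; omega, ?_⟩
      have hN2 : (2 : ℝ) ≤ N := by exact_mod_cast h
      have h1 : fn (((k : ℝ) + 1) / 2) N ≤ -(k - 1) := by
        have e : fn (((k : ℝ) + 1) / 2) N = N - ((k : ℝ) + 1) / 2 * (N * (N - 1)) := rfl
        rw [e]
        have h3 : 0 ≤ ((N : ℝ) - 2) * (((k : ℝ) + 1) / 2 * (N + 1) - 1) := by
          apply mul_nonneg (by linarith)
          nlinarith
        nlinarith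
      have h2 : (X.card : ℝ) + 1 ≤ k := by exact_mod_cast hcard
      simp only [card_empty, Nat.cast_zero]
      linarith

/-- if the classes are hit often enough and seldom more than once, then there are `k` successive elements in
different classes -/
theorem exists_run (K k : ℕ) (hk : 2 ≤ k) (J : Finset ℕ)
    (hJ : ((20 * k ^ 2 : ℕ) : ℝ) / (40 * (((k : ℝ) + 1) / 2)) ≤
      ∑ g ∈ range (20 * k ^ 2), fn (((k : ℝ) + 1) / 2) (J.filter (fun x => x / K = g)).card) :
    ∃ X : Finset ℕ, Run K J X ∧ X.card = k := by
  by_contra hcon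
  obtain ⟨X, -, -, -, -, hc, hs⟩ := run_aux K k hk J hcon (20 * k ^ 2)
  have h1 := hJ.trans hs
  have h2 : (X.card : ℝ) + 1 ≤ k := by exact_mod_cast hc
  have hk2 : (2 : ℝ) ≤ k := by exact_mod_cast hk
  rw [div_le_iff₀ (by positivity)] at h1
  push_cast at h1
  nlinarith

end Pool.Agent.H35_PP
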