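import Mathlib
import Pool.Agent.H35_PP.Exact2
import Pool.Agent.H35_PP.Run

/-!
# Consecutive primes with one member from each of `k` classes of a blow-up
-/

set_option autoImplicit false

namespace Pool.Agent.H35_PP

open Finset
open Pool.Agent.TH779.Ord (fn)

/-- there are infinitely many `n` in the class `a` modulo `q` for which the numbers `n + h`, `h ∈ H`, are
consecutive primes: they are primes, and there are no other primes between them -/
def Realised (q a : ℕ) (H : Finset ℕ) : Prop :=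
  {n : ℕ | n ≡ a [MOD q] ∧ (∀ h ∈ H, (n + h).Prime) ∧
    ∀ m : ℕ, (∃ h ∈ H, n + h ≤ m) → (∃ h ∈ H, m ≤ n + h) → m.Prime → ∃ h ∈ H, m = n + h}.Infinite

theorem trans_lt {T : ℕ} (A : Fin T → Finset ℕ) (hne : ∀ i, (A i).Nonempty)
    (hmono : ∀ f : Fin T → ℕ, (∀ i, f i ∈ A i) → StrictMono f) {i i' : Fin T} (hi : i < i')
    {u u' : ℕ} (hu : u ∈ A i) (hu' : u' ∈ A i') : u < u' := by
  classical
  have h := hmono (fun l => if l = i then u else if l = i' then u' else (hne l).choose) (by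
    intro l
    by_cases h1 : l = i
    · simp only [h1, if_true]
      exact hu
    · by_cases h2 : l = i'
      · simp only [h1, h2, if_false, if_true]
        rw [if_neg hi.ne']
        exact hu'
      · simp only [h1, h2, if_false]
        exact (hne l).choose_spec)
  have h2 := h hi
  simp only [if_true] at h2
  rw [if_neg hi.ne'] at h2
  exact h2

theorem blow (k : ℕ) (hk : 2 ≤ k) : ∃ K : ℕ, 2 ≤ K ∧ ∀ q a : ℕ, 1 ≤ q →
    ∀ A : Fin (20 * k ^ 2) → Finset ℕ, (∀ i, (A i).card = K) →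
    (∀ i, ∀ v ∈ A i, Nat.Coprime (a + v) q) →
    (∀ f : Fin (20 * k ^ 2) → ℕ, (∀ i, f i ∈ A i) → StrictMono f) →
    (∀ p : ℕ, p.Prime → ∃ r : ℕ, ∀ i, ∀ v ∈ A i, ¬ p ∣ r + v) →
    ∃ f : Fin (20 * k ^ 2) → ℕ, (∀ i, f i ∈ A i) ∧ ∃ H : Finset ℕ, H ⊆ univ.image f ∧ H.card = k ∧
      Realised q a H := by
  classical
  set T := 20 * k ^ 2 with hT
  have hk2 : (2 : ℝ) ≤ k := by exact_mod_cast hk
  have hT1 : 1 ≤ T := by
    have : 0 < k ^ 2 := by positivity
    omega
  obtain ⟨K, hK, hmain⟩ := exact_few2 T (((k : ℝ) + 1) / 2) hT1 (by linarith)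
  refine ⟨K, hK, fun q a hq A hA haq hmono hadm => ?_⟩
  have hne : ∀ i, (A i).Nonempty := fun i => card_pos.1 (by rw [hA i]; omega)
  set g : ℕ → ℕ → ℕ := fun i j => if h : i < T ∧ j < K then
    (A ⟨i, h.1⟩).orderEmbOfFin (hA _) ⟨j, h.2⟩ else 0 with hg
  have hgmem : ∀ i j (hi : i < T), j < K → g i j ∈ A ⟨i, hi⟩ := by
    intro i j hi hj
    simp only [hg]
    rw [dif_pos ⟨hi, hj⟩]
    exact orderEmbOfFin_mem _ _ _
  have hglt : ∀ i j j', i < T → j < j' → j' < K → g i j < g i j' := by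
    intro i j j' hi hj hj'
    simp only [hg]
    rw [dif_pos ⟨hi, hj.trans hj'⟩, dif_pos ⟨hi, hj'⟩]
    exact (orderEmbOfFin _ _).strictMono (by exact hj)
  set h : ℕ → ℕ := fun x => g (x / K) (x % K) with hh
  have hmod : ∀ x, x % K < K := fun x => Nat.mod_lt _ (by omega)
  have hdiv : ∀ x, x < T * K → x / K < T := fun x hx => (Nat.div_lt_iff_lt_mul (by omega)).2 hx
  have hmem : ∀ x (hx : x < T * K), h x ∈ A ⟨x / K, hdiv x hx⟩ := fun x hx =>
    hgmem _ _ (hdiv x hx) (hmod x)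
  have hlt : ∀ x y, x < y → y < T * K → h x < h y := by
    intro x y hxy hy
    have hx : x < T * K := hxy.trans hy
    rcases (Nat.div_le_div_right hxy.le : x / K ≤ y / K).lt_or_eq with h1 | h1
    · exact trans_lt A hne hmono (i := ⟨x / K, hdiv x hx⟩) (i' := ⟨y / K, hdiv y hy⟩) h1
        (hmem x hx) (hmem y hy)
    · have h2 : x % K < y % K := by
        have e1 := Nat.div_add_mod x K
        have e2 := Nat.div_add_mod y K
        rw [h1] at e1
        omega
      simp only [hh]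
      rw [h1]
      exact hglt _ _ _ (hdiv y hy) h2 (hmod y)
  have hinj : ∀ x < T * K, ∀ y < T * K, h x = h y → x = y := by
    intro x hx y hy e
    rcases lt_trichotomy x y with h1 | h1 | h1
    · exact absurd e (hlt x y h1 hy).ne
    · exact h1
    · exact absurd e (hlt y x h1 hx).ne'
  have hle : ∀ x < T * K, ∀ y < T * K, h x ≤ h y → x ≤ y := by
    intro x hx y hy e
    by_contra hcon
    have := hlt y x (not_le.1 hcon) hx
    omega
  obtain ⟨J, hJ1, hJ2, hJ3⟩ := hmain q a hq h hinj (fun x hx => haq _ _ (hmem x hx)) (by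
    intro p hp
    obtain ⟨r, hr⟩ := hadm p hp
    exact ⟨r, fun x hx => hr _ _ (hmem x hx)⟩)
  obtain ⟨X, ⟨hXJ, hXinj, hXint⟩, hXk⟩ := exists_run K k hk J hJ2
  have hXlt : ∀ x ∈ X, x < T * K := fun x hx => hJ1 x (hXJ hx)
  -- the transversal
  set f : Fin T → ℕ := fun i => if hx : ∃ x ∈ X, x / K = (i : ℕ) then h hx.choose
    else (hne i).choose with hf
  have hfmem : ∀ i, f i ∈ A i := by
    intro i
    simp only [hf]
    split_ifs with hx
    · obtain ⟨h1, h2⟩ := hx.choose_spec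
      have h3 := hmem _ (hXlt _ h1)
      have h4 : (⟨hx.choose / K, hdiv _ (hXlt _ h1)⟩ : Fin T) = i := Fin.ext h2
      rw [h4] at h3
      exact h3
    · exact (hne i).choose_spec
  refine ⟨f, hfmem, X.image h, ?_, ?_, ?_⟩
  · intro v hv
    rw [mem_image] at hv
    obtain ⟨x, hx, rfl⟩ := hv
    rw [mem_image]
    refine ⟨⟨x / K, hdiv x (hXlt x hx)⟩, mem_univ _, ?_⟩
    simp only [hf]
    have hex : ∃ y ∈ X, y / K = x / K := ⟨x, hx, rfl⟩
    rw [dif_pos hex]
    obtain ⟨h1, h2⟩ := hex.choose_spec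
    rw [hXinj _ h1 x hx h2]
  · rw [card_image_of_injOn, hXk]
    intro x hx y hy e
    exact hinj x (hXlt x hx) y (hXlt y hy) e
  · unfold Realised
    apply hJ3.mono
    rintro n ⟨hn1, hn2, hn3⟩
    refine ⟨hn1, ?_, ?_⟩
    · intro v hv
      rw [mem_image] at hv
      obtain ⟨x, hx, rfl⟩ := hv
      exact hn2 x (hXJ hx)
    · rintro m ⟨v1, hv1, hm1⟩ ⟨v2, hv2, hm2⟩ hmp
      rw [mem_image] at hv1 hv2
      obtain ⟨x1, hx1, rfl⟩ := hv1
      obtain ⟨x2, hx2, rfl⟩ := hv2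
      obtain ⟨y, rfl⟩ : ∃ y, m = n + y := ⟨m - n, by omega⟩
      have hy2 : y ≤ h x2 := by omega
      obtain ⟨x, hxJ, hxy⟩ := hn3 y ⟨x2, hXlt x2 hx2, hy2⟩ hmp
      subst hxy
      have h1 : h x1 ≤ h x := by omega
      have h2 : h x ≤ h x2 := hy2
      have hxX : x ∈ X := hXint x hxJ ⟨x1, hx1, hle _ (hXlt _ hx1) _ (hJ1 _ hxJ) h1⟩
        ⟨x2, hx2, hle _ (hJ1 _ hxJ) _ (hXlt _ hx2) h2⟩
      exact ⟨h x, mem_image_of_mem h hxX, rfl⟩

end Pool.Agent.H35_PP
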