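import Mathlib

/-!
# Erdős' box theorem

A set of `ε N ^ T` points of `V ^ T`, where `V` has `N` elements and `N` is large, contains a product of `T`
sets with `K` elements.
-/

set_option autoImplicit false

namespace Pool.Agent.H35_PP

open Finset

theorem box_step (K T : ℕ) (ε : ℝ) (hε : 0 < ε) :
    ∃ (N₁ : ℕ) (ε' : ℝ), 0 < ε' ∧ ∀ V : Finset ℕ, N₁ ≤ V.card → ∀ E : Finset (Fin (T + 1) → ℕ),
      (∀ f ∈ E, ∀ i, f i ∈ V) → ε * (V.card : ℝ) ^ (T + 1) ≤ E.card →
      ∃ S : Finset ℕ, S ⊆ V ∧ S.card = K ∧ ∃ E' : Finset (Fin T → ℕ), (∀ f ∈ E', ∀ i, f i ∈ V) ∧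
        (∀ f ∈ E', ∀ v ∈ S, (Fin.cons v f : Fin (T + 1) → ℕ) ∈ E) ∧
        ε' * (V.card : ℝ) ^ T ≤ E'.card := by
  classical
  obtain ⟨M, hM⟩ := exists_nat_ge (4 * (K + 1) / ε)
  have hM0 : (0 : ℝ) < M := lt_of_lt_of_le (by positivity) hM
  have hMK : 4 * (K + 1 : ℝ) ≤ ε * M := by
    rw [div_le_iff₀ hε] at hM
    linarith
  refine ⟨⌈2 * M / ε⌉₊, ε / (4 * 2 ^ M), by positivity, fun V hV E hEV hE => ?_⟩
  set N := V.card with hN
  have hVN : 2 * M / ε ≤ (N : ℝ) := (Nat.le_ceil _).trans (by exact_mod_cast hV)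
  have hMN : (M : ℝ) ≤ ε / 2 * N := by
    rw [div_le_iff₀ hε] at hVN
    linarith
  set B : Finset (Fin T → ℕ) := Fintype.piFinset (fun _ => V) with hB
  have hBc : (B.card : ℝ) = (N : ℝ) ^ T := by
    rw [hB, Fintype.card_piFinset]
    simp [hN]
  have hN0 : (0 : ℝ) < N := by
    have : (0 : ℝ) < ε / 2 * N := lt_of_lt_of_le hM0 hMN
    by_contra h
    have h2 : (0 : ℝ) ≤ N := Nat.cast_nonneg N
    have h3 : (N : ℝ) = 0 := le_antisymm (not_lt.1 h) h2
    rw [h3] at this
    simp at this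
  set deg : ℕ → ℕ := fun v => (B.filter (fun y => (Fin.cons v y : Fin (T + 1) → ℕ) ∈ E)).card
    with hdeg
  have hsum : (E.card : ℝ) = ∑ v ∈ V, (deg v : ℝ) := by
    rw [← Nat.cast_sum]
    congr 1
    rw [hdeg]
    have h1 : E.card = (V.sigma (fun v => B.filter
        (fun y => (Fin.cons v y : Fin (T + 1) → ℕ) ∈ E))).card := by
      apply card_bij' (fun f _ => (⟨f 0, Fin.tail f⟩ : Σ _ : ℕ, (Fin T → ℕ)))
        (fun s _ => (Fin.cons s.1 s.2 : Fin (T + 1) → ℕ))
      · intro f hf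
        rw [mem_sigma]
        refine ⟨hEV f hf 0, ?_⟩
        rw [mem_filter]
        refine ⟨Fintype.mem_piFinset.2 fun i => hEV f hf _, ?_⟩
        simp only [Fin.cons_self_tail]
        exact hf
      · intro s hs
        rw [mem_sigma, mem_filter] at hs
        exact hs.2.2
      · intro f hf
        simp
      · intro s hs
        simp
    rw [h1, card_sigma]
  have hdegle : ∀ v, (deg v : ℝ) ≤ (N : ℝ) ^ T := by
    intro v
    rw [← hBc]
    exact_mod_cast card_le_card (filter_subset _ _)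
  -- vertices of large degree
  set V1 := V.filter (fun v => ε / 2 * (N : ℝ) ^ T ≤ deg v) with hV1
  have hV1c : ε / 2 * N ≤ (V1.card : ℝ) := by
    have h1 : ∑ v ∈ V, (deg v : ℝ) ≤ V1.card * (N : ℝ) ^ T + N * (ε / 2 * (N : ℝ) ^ T) := by
      rw [← sum_filter_add_sum_filter_not V (fun v => ε / 2 * (N : ℝ) ^ T ≤ deg v)]
      apply add_le_add
      · rw [← nsmul_eq_mul]
        exact sum_le_card_nsmul _ _ _ fun v _ => hdegle v
      · have h2 : ∑ v ∈ V.filter (fun v => ¬ ε / 2 * (N : ℝ) ^ T ≤ deg v), (deg v : ℝ) ≤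
            (V.filter (fun v => ¬ ε / 2 * (N : ℝ) ^ T ≤ deg v)).card • (ε / 2 * (N : ℝ) ^ T) :=
          sum_le_card_nsmul _ _ _ fun v hv => (not_le.1 (mem_filter.1 hv).2).le
        refine h2.trans ?_
        rw [nsmul_eq_mul]
        apply mul_le_mul_of_nonneg_right _ (by positivity)
        exact_mod_cast card_le_card (filter_subset _ _)
    rw [← hsum] at h1
    have h3 := hE.trans h1
    rw [pow_succ] at h3
    have hp : (0 : ℝ) < (N : ℝ) ^ T := by positivity
    have h4 : (ε / 2 * N) * (N : ℝ) ^ T ≤ V1.card * (N : ℝ) ^ T := by nlinarith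
    exact le_of_mul_le_mul_right h4 hp
  have hMV1 : M ≤ V1.card := by
    exact_mod_cast hMN.trans hV1c
  obtain ⟨W, hWV, hWc⟩ := exists_subset_card_eq hMV1
  set D : (Fin T → ℕ) → Finset ℕ := fun y =>
    W.filter (fun v => (Fin.cons v y : Fin (T + 1) → ℕ) ∈ E) with hD
  have hDsum : ∑ y ∈ B, ((D y).card : ℝ) = ∑ v ∈ W, (deg v : ℝ) := by
    rw [← Nat.cast_sum, ← Nat.cast_sum]
    congr 1
    simp only [hD, hdeg, card_filter]
    exact sum_comm
  have hDlow : M * (ε / 2 * (N : ℝ) ^ T) ≤ ∑ y ∈ B, ((D y).card : ℝ) := by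
    rw [hDsum]
    have h1 : W.card • (ε / 2 * (N : ℝ) ^ T) ≤ ∑ v ∈ W, (deg v : ℝ) :=
      card_nsmul_le_sum _ _ _ fun v hv => (mem_filter.1 (hWV hv)).2
    rw [nsmul_eq_mul, hWc] at h1
    exact h1
  set Y := B.filter (fun y => K ≤ (D y).card) with hY
  have hYlow : ε / 4 * (N : ℝ) ^ T ≤ (Y.card : ℝ) := by
    have h1 : ∑ y ∈ B, ((D y).card : ℝ) ≤ Y.card * M + (N : ℝ) ^ T * K := by
      rw [← sum_filter_add_sum_filter_not B (fun y => K ≤ (D y).card)]
      apply add_le_add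
      · rw [← nsmul_eq_mul]
        refine sum_le_card_nsmul _ _ _ fun y _ => ?_
        rw [← hWc]
        exact_mod_cast card_le_card (filter_subset _ _)
      · have h2 : ∑ y ∈ B.filter (fun y => ¬ K ≤ (D y).card), ((D y).card : ℝ) ≤
            (B.filter (fun y => ¬ K ≤ (D y).card)).card • (K : ℝ) :=
          sum_le_card_nsmul _ _ _ fun y hy => by
            exact_mod_cast (not_le.1 (mem_filter.1 hy).2).le
        refine h2.trans ?_
        rw [nsmul_eq_mul, ← hBc]
        apply mul_le_mul_of_nonneg_right _ (by positivity)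
        exact_mod_cast card_le_card (filter_subset _ _)
    have h3 := hDlow.trans h1
    have hp : (0 : ℝ) < (N : ℝ) ^ T := by positivity
    have h4 : (N : ℝ) ^ T * K ≤ M * (ε / 4 * (N : ℝ) ^ T) := by
      have : (K : ℝ) ≤ ε * M / 4 := by linarith
      nlinarith
    have h5 : (ε / 4 * (N : ℝ) ^ T) * M ≤ Y.card * M := by nlinarith
    exact le_of_mul_le_mul_right h5 hM0
  -- pigeonhole
  set G : Finset ℕ → Finset (Fin T → ℕ) := fun S =>
    B.filter (fun y => ∀ v ∈ S, (Fin.cons v y : Fin (T + 1) → ℕ) ∈ E) with hG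
  have hYG : Y ⊆ (W.powersetCard K).biUnion G := by
    intro y hy
    rw [hY, mem_filter] at hy
    obtain ⟨S, hS1, hS2⟩ := exists_subset_card_eq hy.2
    rw [mem_biUnion]
    refine ⟨S, ?_, ?_⟩
    · rw [mem_powersetCard]
      exact ⟨hS1.trans (filter_subset _ _), hS2⟩
    · rw [hG, mem_filter]
      exact ⟨hy.1, fun v hv => (mem_filter.1 (hS1 hv)).2⟩
  have hex : ∃ S ∈ W.powersetCard K, ε / (4 * 2 ^ M) * (N : ℝ) ^ T ≤ (G S).card := by
    by_contra hcon
    push Not at hcon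
    have h1 : (Y.card : ℝ) ≤ ∑ S ∈ W.powersetCard K, ((G S).card : ℝ) := by
      rw [← Nat.cast_sum]
      exact_mod_cast (card_le_card hYG).trans card_biUnion_le
    have hne : (W.powersetCard K).Nonempty := by
      rw [powersetCard_nonempty, hWc]
      have h2 : (K : ℝ) ≤ M := by
        by_contra h
        rcases le_or_gt ε 1 with h3 | h3
        · nlinarith
        · -- ε > 1 is impossible, because |E| ≤ N ^ (T + 1)
          have h4 : (E.card : ℝ) ≤ (N : ℝ) ^ (T + 1) := by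
            rw [hsum]
            have := sum_le_card_nsmul V (fun v => (deg v : ℝ)) ((N : ℝ) ^ T) fun v _ => hdegle v
            rw [nsmul_eq_mul] at this
            rw [pow_succ]
            linarith
          have hp : (0 : ℝ) < (N : ℝ) ^ (T + 1) := by positivity
          nlinarith
      exact_mod_cast h2
    have h2 : ∑ S ∈ W.powersetCard K, ((G S).card : ℝ) <
        ∑ _S ∈ W.powersetCard K, ε / (4 * 2 ^ M) * (N : ℝ) ^ T :=
      sum_lt_sum_of_nonempty hne fun S hS => hcon S hS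
    rw [sum_const, nsmul_eq_mul] at h2
    have h3 : ((W.powersetCard K).card : ℝ) ≤ 2 ^ M := by
      have : (W.powersetCard K).card ≤ 2 ^ M := by
        rw [card_powersetCard, hWc]
        exact Nat.choose_le_two_pow M K
      exact_mod_cast this
    have h4 : ((W.powersetCard K).card : ℝ) * (ε / (4 * 2 ^ M) * (N : ℝ) ^ T) ≤
        2 ^ M * (ε / (4 * 2 ^ M) * (N : ℝ) ^ T) :=
      mul_le_mul_of_nonneg_right h3 (by positivity)
    have h5 : (2 : ℝ) ^ M * (ε / (4 * 2 ^ M) * (N : ℝ) ^ T) = ε / 4 * (N : ℝ) ^ T := by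
      field_simp
    linarith
  obtain ⟨S, hS, hSG⟩ := hex
  rw [mem_powersetCard] at hS
  refine ⟨S, (hS.1.trans hWV).trans (filter_subset _ _), hS.2, G S, ?_, ?_, hSG⟩
  · intro f hf i
    exact Fintype.mem_piFinset.1 (mem_filter.1 hf).1 i
  · intro f hf v hv
    exact (mem_filter.1 hf).2 v hv

/-- **Erdős' box theorem** -/
theorem box (K : ℕ) : ∀ (T : ℕ) (ε : ℝ), 0 < ε → ∃ N₀ : ℕ, ∀ V : Finset ℕ, N₀ ≤ V.card →
    ∀ E : Finset (Fin T → ℕ), (∀ f ∈ E, ∀ i, f i ∈ V) → ε * (V.card : ℝ) ^ T ≤ E.card →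
    ∃ A : Fin T → Finset ℕ, (∀ i, A i ⊆ V) ∧ (∀ i, (A i).card = K) ∧
      ∀ f : Fin T → ℕ, (∀ i, f i ∈ A i) → f ∈ E := by
  classical
  intro T
  induction T with
  | zero =>
    intro ε hε
    refine ⟨0, fun V _ E _ hE => ⟨fun i => i.elim0, fun i => i.elim0, fun i => i.elim0, ?_⟩⟩
    intro f _
    have h1 : (0 : ℝ) < E.card := by
      refine lt_of_lt_of_le ?_ hE
      simpa using hε
    have h2 : 0 < E.card := by exact_mod_cast h1
    obtain ⟨g, hg⟩ := card_pos.1 h2
    have : f = g := Subsingleton.elim _ _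
    rw [this]
    exact hg
  | succ T ih =>
    intro ε hε
    obtain ⟨N₁, ε', hε', h1⟩ := box_step K T ε hε
    obtain ⟨N₂, h2⟩ := ih ε' hε'
    refine ⟨max N₁ N₂, fun V hV E hEV hE => ?_⟩
    obtain ⟨S, hSV, hSK, E', hE'V, hE'E, hE'c⟩ := h1 V ((le_max_left _ _).trans hV) E hEV hE
    obtain ⟨A, hAV, hAK, hA⟩ := h2 V ((le_max_right _ _).trans hV) E' hE'V hE'c
    refine ⟨Fin.cons S A, ?_, ?_, ?_⟩
    · intro i
      refine Fin.cases ?_ (fun j => ?_) i
      · simpa using hSV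
      · simpa using hAV j
    · intro i
      refine Fin.cases ?_ (fun j => ?_) i
      · simpa using hSK
      · simpa using hAK j
    · intro f hf
      have h3 := hE'E (Fin.tail f) (hA (Fin.tail f) (fun i => by
        have := hf i.succ
        simpa [Fin.tail] using this)) (f 0) (by
        have := hf 0
        simpa using this)
      rw [Fin.cons_self_tail] at h3
      exact h3

end Pool.Agent.H35_PP
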