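import Mathlib
import Pool.Agent.H35_PP.Box
import Pool.Agent.H35_PP.Blow

/-!
# The proportion of the realised patterns among the `k`-element subsets of a locally admissible set
-/

set_option autoImplicit false

namespace Pool.Agent.H35_PP

open Finset

theorem miss {p : ℕ} (hp : p.Prime) (U : Finset ℕ) (hU : U.card < p) :
    ∃ r : ℕ, ∀ u ∈ U, ¬ p ∣ r + u := by
  classical
  have : Fact p.Prime := ⟨hp⟩
  have h1 : (U.image (fun u : ℕ => -(u : ZMod p))).card < (univ : Finset (ZMod p)).card := by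
    rw [card_univ, ZMod.card]
    exact card_image_le.trans_lt hU
  obtain ⟨r, -, hr⟩ := exists_mem_notMem_of_card_lt_card h1
  refine ⟨r.val, fun u hu hd => hr ?_⟩
  rw [mem_image]
  refine ⟨u, hu, ?_⟩
  rw [← ZMod.natCast_eq_zero_iff] at hd
  push_cast at hd
  rw [ZMod.natCast_zmod_val] at hd
  exact (eq_neg_of_add_eq_zero_left hd).symm

/-- the number of the supersets -/
theorem supersets (V H : Finset ℕ) (T : ℕ) (hHV : H ⊆ V) :
    ((V.powersetCard T).filter (fun S => H ⊆ S)).card ≤ (V.card - H.card).choose (T - H.card) := by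
  classical
  rw [← card_sdiff_of_subset hHV, ← card_powersetCard]
  apply card_le_card_of_injOn (fun S => S \ H)
  · intro S hS
    rw [mem_coe, mem_filter, mem_powersetCard] at hS
    rw [mem_coe, mem_powersetCard]
    refine ⟨sdiff_subset_sdiff hS.1.1 (Subset.refl _), ?_⟩
    rw [card_sdiff_of_subset hS.2, hS.1.2]
  · intro S hS S' hS' e
    rw [mem_coe, mem_filter] at hS hS'
    simp only at e
    rw [← union_sdiff_of_subset hS.2, e, union_sdiff_of_subset hS'.2]

/-- most `T`-element subsets contain no member of a small family of `k`-element subsets -/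
theorem free_sets (V : Finset ℕ) (F : Finset (Finset ℕ)) (k T : ℕ) (hkT : k ≤ T) (hTV : T ≤ V.card)
    (hF : F ⊆ V.powersetCard k) (c : ℝ)
    (hc : (F.card : ℝ) * (T.choose k : ℝ) ≤ c * (V.card.choose k : ℝ)) :
    (1 - c) * (V.card.choose T : ℝ) ≤
      ((V.powersetCard T).filter (fun S => ∀ H ∈ F, ¬ H ⊆ S)).card := by
  classical
  set N := V.card with hN
  have h1 : V.powersetCard T ⊆ (V.powersetCard T).filter (fun S => ∀ H ∈ F, ¬ H ⊆ S) ∪
      F.biUnion (fun H => (V.powersetCard T).filter (fun S => H ⊆ S)) := by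
    intro S hS
    rw [mem_union, mem_filter, mem_biUnion]
    by_cases h : ∀ H ∈ F, ¬ H ⊆ S
    · exact Or.inl ⟨hS, h⟩
    · right
      push Not at h
      obtain ⟨H, hH, hHS⟩ := h
      exact ⟨H, hH, mem_filter.2 ⟨hS, hHS⟩⟩
  have h2 : (N.choose T) ≤ ((V.powersetCard T).filter (fun S => ∀ H ∈ F, ¬ H ⊆ S)).card +
      F.card * (N - k).choose (T - k) := by
    have h3 := (card_le_card h1).trans (card_union_le _ _)
    rw [card_powersetCard] at h3
    refine h3.trans (Nat.add_le_add_left ?_ _)
    refine card_biUnion_le.trans ?_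
    have h4 := sum_le_card_nsmul F
      (fun H => ((V.powersetCard T).filter (fun S => H ⊆ S)).card) ((N - k).choose (T - k))
      (fun H hH => by
        have h5 := mem_powersetCard.1 (hF hH)
        have h6 := supersets V H T h5.1
        rw [h5.2] at h6
        exact h6)
    rw [smul_eq_mul] at h4
    exact h4
  have h3 : (N.choose T : ℝ) ≤ ((V.powersetCard T).filter (fun S => ∀ H ∈ F, ¬ H ⊆ S)).card +
      F.card * ((N - k).choose (T - k) : ℝ) := by exact_mod_cast h2
  have h4 : (N.choose T : ℝ) * T.choose k = N.choose k * (N - k).choose (T - k) := by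
    exact_mod_cast Nat.choose_mul hkT
  have hNk : (0 : ℝ) < N.choose k := by
    exact_mod_cast Nat.choose_pos (hkT.trans hTV)
  have h5 : (F.card : ℝ) * ((N - k).choose (T - k) : ℝ) ≤ c * N.choose T := by
    have h6 : ((F.card : ℝ) * ((N - k).choose (T - k) : ℝ)) * N.choose k ≤
        (c * N.choose T) * N.choose k := by
      calc ((F.card : ℝ) * ((N - k).choose (T - k) : ℝ)) * N.choose k
          = F.card * (N.choose k * (N - k).choose (T - k)) := by ring
        _ = (F.card * T.choose k) * N.choose T := by rw [← h4]; ring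
        _ ≤ (c * N.choose k) * N.choose T := mul_le_mul_of_nonneg_right hc (by positivity)
        _ = _ := by ring
    exact le_of_mul_le_mul_right h6 hNk
  linarith

theorem choose_bound (k : ℕ) : ((20 * k ^ 2).choose k : ℝ) ≤ (20 * Real.exp 1 * k) ^ k := by
  have h1 := Nat.choose_le_pow_div (α := ℝ) k (20 * k ^ 2)
  refine h1.trans ?_
  have h2 := Real.pow_div_factorial_le_exp (k : ℝ) (Nat.cast_nonneg k) k
  have h3 : (((20 * k ^ 2 : ℕ) : ℝ)) ^ k / (k.factorial : ℝ) =
      (20 * k) ^ k * ((k : ℝ) ^ k / (k.factorial : ℝ)) := by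
    push_cast
    rw [← mul_div_assoc, ← mul_pow]
    congr 2
    ring
  rw [h3]
  have h4 : (20 * (k : ℝ)) ^ k * ((k : ℝ) ^ k / (k.factorial : ℝ)) ≤
      (20 * (k : ℝ)) ^ k * Real.exp k := mul_le_mul_of_nonneg_left h2 (by positivity)
  refine h4.trans (le_of_eq ?_)
  have h5 : Real.exp (k : ℝ) = Real.exp 1 ^ k := by
    rw [← Real.exp_nat_mul, mul_one]
  rw [h5, ← mul_pow]
  congr 1
  ring

theorem exp_lt : 20 * Real.exp 1 < 55 := by
  have := Real.exp_one_lt_d9
  linarith

/-- **Part A.** In a large set which misses a residue class modulo each prime `p ≤ 20 k²`, at least the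
proportion `(55 k)^(-k)` of the `k`-element subsets is realised by consecutive primes. -/
theorem partA (k : ℕ) (hk : 2 ≤ k) : ∃ N₀ : ℕ, ∀ V : Finset ℕ, N₀ ≤ V.card →
    (∀ p : ℕ, p.Prime → p ≤ 20 * k ^ 2 → ∃ r : ℕ, ∀ v ∈ V, ¬ p ∣ r + v) →
    ∀ q a : ℕ, 1 ≤ q → (∀ v ∈ V, Nat.Coprime (a + v) q) → ∀ F : Finset (Finset ℕ),
      (∀ H : Finset ℕ, H ⊆ V → H.card = k → Realised q a H → H ∈ F) →
      (V.card.choose k : ℝ) ≤ (55 * k) ^ k * F.card := by
  classical
  obtain ⟨K, hK, hblow⟩ := blow k hk
  set T := 20 * k ^ 2 with hT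
  set W := (T * K).factorial with hW
  have hW0 : 0 < W := Nat.factorial_pos _
  have hkT : k ≤ T := by
    rw [hT]
    nlinarith
  have hkR : (2 : ℝ) ≤ k := by exact_mod_cast hk
  set c : ℝ := (20 * Real.exp 1 / 55) ^ k with hc
  have hc1 : c < 1 := by
    rw [hc]
    apply pow_lt_one₀ (by positivity) _ (by omega)
    rw [div_lt_one (by norm_num)]
    exact exp_lt
  set ε : ℝ := (1 - c) / (2 ^ T * T.factorial * (W : ℝ) ^ T) with hε
  have hWR : (0 : ℝ) < W := by exact_mod_cast hW0
  have hTf : (0 : ℝ) < T.factorial := by exact_mod_cast Nat.factorial_pos T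
  have hε0 : 0 < ε := by
    rw [hε]
    apply div_pos (by linarith)
    positivity
  obtain ⟨N₀, hbox⟩ := box K T ε hε0
  refine ⟨max N₀ (2 * T), fun V hV hadm q a hq haq F' hF' => ?_⟩
  have hN1 : N₀ ≤ V.card := (le_max_left _ _).trans hV
  have hN2 : 2 * T ≤ V.card := (le_max_right _ _).trans hV
  set N := V.card with hN
  -- the family
  set F := F'.filter (fun H => H ⊆ V ∧ H.card = k) with hF
  by_contra hcon
  push Not at hcon
  have hFF : (F.card : ℝ) ≤ F'.card := by exact_mod_cast card_le_card (filter_subset _ _)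
  have h55 : (55 * (k : ℝ)) ^ k * F.card < N.choose k :=
    (mul_le_mul_of_nonneg_left hFF (by positivity)).trans_lt hcon
  have hFc : (F.card : ℝ) * (T.choose k : ℝ) ≤ c * N.choose k := by
    calc (F.card : ℝ) * (T.choose k : ℝ) ≤ F.card * (20 * Real.exp 1 * k) ^ k :=
          mul_le_mul_of_nonneg_left (choose_bound k) (Nat.cast_nonneg _)
      _ = c * ((55 * (k : ℝ)) ^ k * F.card) := by
          rw [hc, div_pow, mul_pow (20 * Real.exp 1), mul_pow (55 : ℝ)]
          field_simp
      _ ≤ c * N.choose k := mul_le_mul_of_nonneg_left h55.le (by positivity)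
  have hfree := free_sets V F k T hkT (by omega) (by
    intro H hH
    rw [hF, mem_filter] at hH
    exact mem_powersetCard.2 hH.2) c hFc
  set G := (V.powersetCard T).filter (fun S => ∀ H ∈ F, ¬ H ⊆ S) with hG
  -- increasing tuples
  set E₀ : Finset (Fin T → ℕ) := (Fintype.piFinset (fun _ : Fin T => V)).filter
    (fun f => StrictMono f ∧ ∀ H ∈ F, ¬ H ⊆ univ.image f) with hE₀
  have hGE : G.card ≤ E₀.card := by
    apply card_le_card_of_injOn (fun S => if h : S.card = T then (S.orderEmbOfFin h : Fin T → ℕ)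
      else fun _ => 0)
    · intro S hS
      rw [mem_coe, hG, mem_filter, mem_powersetCard] at hS
      simp only
      rw [dif_pos hS.1.2, mem_coe, hE₀, mem_filter]
      refine ⟨Fintype.mem_piFinset.2 fun i => hS.1.1 (orderEmbOfFin_mem _ _ _),
        (S.orderEmbOfFin hS.1.2).strictMono, fun H hH hHs => hS.2 H hH (hHs.trans ?_)⟩
      intro v hv
      rw [mem_image] at hv
      obtain ⟨i, -, rfl⟩ := hv
      exact orderEmbOfFin_mem _ _ _
    · intro S hS S' hS' e
      rw [mem_coe, hG, mem_filter, mem_powersetCard] at hS hS'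
      simp only at e
      rw [dif_pos hS.1.2, dif_pos hS'.1.2] at e
      have h1 := range_orderEmbOfFin S hS.1.2
      have h2 := range_orderEmbOfFin S' hS'.1.2
      rw [e, h2] at h1
      exact (coe_injective h1).symm
  have hE₀low : (1 - c) * ((N : ℝ) / 2) ^ T / T.factorial ≤ E₀.card := by
    have h1 : (1 - c) * (N.choose T : ℝ) ≤ E₀.card := hfree.trans (by exact_mod_cast hGE)
    refine le_trans ?_ h1
    rw [mul_div_assoc]
    apply mul_le_mul_of_nonneg_left _ (by linarith)
    rw [div_le_iff₀ hTf]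
    have h2 := Nat.pow_sub_le_descFactorial N T
    rw [Nat.descFactorial_eq_factorial_mul_choose] at h2
    have h3 : ((N + 1 - T : ℕ) : ℝ) ^ T ≤ T.factorial * N.choose T := by exact_mod_cast h2
    have h4 : (N : ℝ) / 2 ≤ ((N + 1 - T : ℕ) : ℝ) := by
      have h5 : N ≤ 2 * (N + 1 - T) := by omega
      have h6 : (N : ℝ) ≤ 2 * ((N + 1 - T : ℕ) : ℝ) := by exact_mod_cast h5
      linarith
    calc ((N : ℝ) / 2) ^ T ≤ ((N + 1 - T : ℕ) : ℝ) ^ T := pow_le_pow_left₀ (by positivity) h4 T
      _ ≤ T.factorial * N.choose T := h3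
      _ = N.choose T * T.factorial := by ring
  -- residue classes
  set P := Fintype.piFinset (fun _ : Fin T => range W) with hP
  have hPc : (P.card : ℝ) = (W : ℝ) ^ T := by
    rw [hP, Fintype.card_piFinset]
    simp
  obtain ⟨ρ, hρ, hρc⟩ : ∃ ρ ∈ P, ε * (N : ℝ) ^ T ≤
      (E₀.filter (fun f => (fun i => f i % W) = ρ)).card := by
    by_contra hno
    push Not at hno
    have h1 : (E₀.card : ℝ) = ∑ ρ ∈ P, ((E₀.filter (fun f => (fun i => f i % W) = ρ)).card : ℝ) := by
      rw [← Nat.cast_sum]
      congr 1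
      apply card_eq_sum_card_fiberwise
      intro f _
      rw [mem_coe, hP, Fintype.mem_piFinset]
      exact fun i => mem_range.2 (Nat.mod_lt _ hW0)
    have hPne : P.Nonempty := by
      rw [← card_pos]
      have : (0 : ℝ) < P.card := by rw [hPc]; positivity
      exact_mod_cast this
    have h2 := sum_lt_sum_of_nonempty hPne fun ρ hρ => hno ρ hρ
    rw [← h1, sum_const, nsmul_eq_mul, hPc] at h2
    have h3 : (W : ℝ) ^ T * (ε * (N : ℝ) ^ T) = (1 - c) * ((N : ℝ) / 2) ^ T / T.factorial := by
      rw [hε, div_pow]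
      field_simp
    linarith
  set E := E₀.filter (fun f => (fun i => f i % W) = ρ) with hE
  obtain ⟨A, hAV, hAK, hA⟩ := hbox V hN1 E (by
    intro f hf i
    rw [hE, mem_filter, hE₀, mem_filter] at hf
    exact Fintype.mem_piFinset.1 hf.1.1 i) hρc
  have hmem : ∀ f, f ∈ E → StrictMono f ∧ (∀ H ∈ F, ¬ H ⊆ univ.image f) ∧ ∀ i, f i % W = ρ i := by
    intro f hf
    rw [hE, mem_filter, hE₀, mem_filter] at hf
    exact ⟨hf.1.2.1, hf.1.2.2, fun i => congrFun hf.2 i⟩
  have hne : ∀ i, (A i).Nonempty := fun i => card_pos.1 (by rw [hAK i]; omega)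
  have hres : ∀ i, ∀ v ∈ A i, v % W = ρ i := by
    intro i v hv
    have h1 := hA (fun l => if l = i then v else (hne l).choose) (by
      intro l
      by_cases h : l = i
      · simp only [h, if_true]
        exact hv
      · simp only [h, if_false]
        exact (hne l).choose_spec)
    have h2 := (hmem _ h1).2.2 i
    simp only [if_true] at h2
    exact h2
  obtain ⟨f, hfA, H, hHf, hHk, hHr⟩ := hblow q a hq A hAK
    (fun i v hv => haq v (hAV i hv)) (fun f hf => (hmem f (hA f hf)).1) (by
    intro p hp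
    rcases le_or_gt p T with h1 | h1
    · obtain ⟨r, hr⟩ := hadm p hp h1
      exact ⟨r, fun i v hv => hr v (hAV i hv)⟩
    · rcases le_or_gt p (T * K) with h2 | h2
      · have hpW : p ∣ W := Nat.dvd_factorial hp.pos h2
        obtain ⟨r, hr⟩ := miss hp (univ.image ρ) (card_image_le.trans_lt (by
          rw [card_univ, Fintype.card_fin]
          exact h1))
        refine ⟨r, fun i v hv hd => hr (ρ i) (mem_image_of_mem _ (mem_univ _)) ?_⟩
        have h3 : v ≡ ρ i [MOD p] := by
          have h4 : v ≡ ρ i [MOD W] := by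
            rw [← hres i v hv]
            exact (Nat.mod_modEq v W).symm
          exact h4.of_dvd hpW
        exact ((Nat.ModEq.add_left r h3).dvd_iff (dvd_refl p)).1 hd
      · obtain ⟨r, hr⟩ := miss hp (univ.biUnion A) (by
          refine card_biUnion_le.trans_lt ?_
          rw [sum_congr rfl fun i _ => hAK i, sum_const, card_univ, Fintype.card_fin, smul_eq_mul]
          exact h2)
        exact ⟨r, fun i v hv => hr v (mem_biUnion.2 ⟨i, mem_univ _, hv⟩)⟩)
  have hHV : H ⊆ V := by
    intro v hv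
    have := hHf hv
    rw [mem_image] at this
    obtain ⟨i, -, rfl⟩ := this
    exact hAV i (hfA i)
  exact (hmem f (hA f hfA)).2.1 H (mem_filter.2 ⟨hF' H hHV hHk hHr, hHV, hHk⟩) hHf

end Pool.Agent.H35_PP
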