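import Mathlib
import Pool.Agent.H35_PP.PartA
import Pool.Agent.Helper256.KM.Mertens

/-!
# The proportion of the realised patterns among the admissible `k`-element subsets of an arbitrary set
-/

set_option autoImplicit false

namespace Pool.Agent.H35_PP

open Finset

/-- `H` misses a residue class modulo every prime -/
def Adm (H : Finset ℕ) : Prop := ∀ p : ℕ, p.Prime → ∃ r : ℕ, ∀ h ∈ H, ¬ p ∣ r + h

/-- the primes up to `k` -/
def P1 (k : ℕ) : Finset ℕ := (range (k + 1)).filter Nat.Prime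

/-- the primes between `k` and `20 k²` -/
def P2 (k : ℕ) : Finset ℕ := (Ioc k (20 * k ^ 2)).filter Nat.Prime

theorem coprime_iff (P : Finset ℕ) (hP : ∀ p ∈ P, p.Prime) (x : ℕ) :
    Nat.Coprime (∏ p ∈ P, p) x ↔ ∀ p ∈ P, ¬ p ∣ x := by
  rw [Nat.coprime_prod_left_iff]
  exact forall₂_congr fun p hp => (hP p hp).coprime_iff_not_dvd

/-- averaging over the translates -/
theorem avg (P : Finset ℕ) (hP : ∀ p ∈ P, p.Prime) (U : Finset ℕ) :
    ∃ t : ℕ, U.card * (∏ p ∈ P, p).totient ≤
      (∏ p ∈ P, p) * (U.filter (fun v => ∀ p ∈ P, ¬ p ∣ t + v)).card := by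
  classical
  set M := ∏ p ∈ P, p with hM
  have hM0 : 0 < M := prod_pos fun p hp => (hP p hp).pos
  by_contra hcon
  push Not at hcon
  have h1 : ∑ t ∈ range M, M * (U.filter (fun v => ∀ p ∈ P, ¬ p ∣ t + v)).card <
      ∑ _t ∈ range M, U.card * M.totient :=
    sum_lt_sum_of_nonempty ⟨0, mem_range.2 hM0⟩ fun t _ => hcon t
  rw [← mul_sum, sum_const, card_range, smul_eq_mul] at h1
  have h2 := Nat.lt_of_mul_lt_mul_left h1
  have h3 : ∑ t ∈ range M, (U.filter (fun v => ∀ p ∈ P, ¬ p ∣ t + v)).card = U.card * M.totient := by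
    have e1 : ∀ t, (U.filter (fun v => ∀ p ∈ P, ¬ p ∣ t + v)).card =
        ∑ v ∈ U, if (∀ p ∈ P, ¬ p ∣ t + v) then 1 else 0 := fun t => card_filter _ _
    rw [sum_congr rfl fun t _ => e1 t, sum_comm]
    rw [← smul_eq_mul, ← sum_const]
    refine sum_congr rfl fun v _ => ?_
    rw [← card_filter, ← Nat.filter_coprime_Ico_eq_totient M v]
    apply card_bij (fun t _ => t + v)
    · intro t ht
      rw [mem_filter, mem_range] at ht
      rw [mem_filter, mem_Ico]
      exact ⟨⟨by omega, by omega⟩, (coprime_iff P hP _).2 ht.2⟩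
    · intro t _ t' _ h
      omega
    · intro x hx
      rw [mem_filter, mem_Ico] at hx
      refine ⟨x - v, ?_, by omega⟩
      rw [mem_filter, mem_range]
      refine ⟨by omega, ?_⟩
      have e2 : x - v + v = x := by omega
      rw [e2]
      exact (coprime_iff P hP _).1 hx.2
  omega

theorem tot_low (P : Finset ℕ) (hP : ∀ p ∈ P, p.Prime) :
    Real.exp (-(2 * ∑ p ∈ P, (1 : ℝ) / p)) * ((∏ p ∈ P, p : ℕ) : ℝ) ≤ ((∏ p ∈ P, p).totient : ℝ) := by
  have h1 := Nat.totient_eq_mul_prod_factors (∏ p ∈ P, p)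
  rw [Nat.primeFactors_prod hP] at h1
  have h2 : ((∏ p ∈ P, p).totient : ℝ) = ((∏ p ∈ P, p : ℕ) : ℝ) * ∏ p ∈ P, (1 - ((p : ℕ) : ℝ)⁻¹) := by
    have := congrArg (fun x : ℚ => (x : ℝ)) h1
    push_cast at this
    push_cast
    exact this
  rw [h2, mul_comm]
  apply mul_le_mul_of_nonneg_left _ (Nat.cast_nonneg _)
  rw [mul_sum, ← sum_neg_distrib, Real.exp_sum]
  apply prod_le_prod (fun p _ => (Real.exp_pos _).le)
  intro p hp
  have hp2 : (2 : ℝ) ≤ p := by exact_mod_cast (hP p hp).two_le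
  have hp0 : (0 : ℝ) < p := by linarith
  rw [Real.exp_neg]
  have h3 : 1 + 2 * (1 / (p : ℝ)) ≤ Real.exp (2 * (1 / (p : ℝ))) := by
    have := Real.add_one_le_exp (2 * (1 / (p : ℝ)))
    linarith
  have h4 : (Real.exp (2 * (1 / (p : ℝ))))⁻¹ ≤ (1 + 2 * (1 / (p : ℝ)))⁻¹ :=
    inv_anti₀ (by positivity) h3
  refine h4.trans ?_
  rw [inv_eq_one_div, div_le_iff₀ (by positivity)]
  have h5 : (1 - (p : ℝ)⁻¹) * (1 + 2 * (1 / (p : ℝ))) = 1 + (p - 2) / (p : ℝ) ^ 2 := by
    field_simp
    ring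
  rw [h5]
  have : 0 ≤ ((p : ℝ) - 2) / (p : ℝ) ^ 2 := div_nonneg (by linarith) (by positivity)
  linarith

theorem mert2 : ∃ C : ℝ, ∀ k : ℕ, 2 ≤ k → ∑ p ∈ P2 k, (1 : ℝ) / p ≤ C := by
  obtain ⟨C, hC⟩ := Pool.Agent.Helper256.KM.mertens_inv
  refine ⟨max 80 (Real.log 5 + 2 * C), fun k hk => ?_⟩
  rcases hk.eq_or_lt with h2 | h3
  · subst h2
    refine le_trans ?_ (le_max_left _ _)
    have h1 : ∑ p ∈ P2 2, (1 : ℝ) / p ≤ ∑ _p ∈ P2 2, (1 : ℝ) := by
      refine sum_le_sum fun p hp => ?_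
      rw [P2, mem_filter] at hp
      have : (1 : ℝ) ≤ p := by exact_mod_cast hp.2.pos
      rw [div_le_one (by linarith)]
      exact this
    refine h1.trans ?_
    rw [sum_const, nsmul_eq_mul, mul_one]
    have : (P2 2).card ≤ 80 := by
      refine (card_filter_le _ _).trans ?_
      rw [Nat.card_Ioc]
      norm_num
    exact_mod_cast this
  · have h3' : 3 ≤ k := h3
    refine le_trans ?_ (le_max_right _ _)
    have hkT : k ≤ 20 * k ^ 2 := by nlinarith
    have e1 : (Icc 1 (20 * k ^ 2)).filter Nat.Prime = (Icc 1 k).filter Nat.Prime ∪ P2 k := by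
      rw [P2, ← filter_union]
      congr 1
      ext x
      rw [mem_union, mem_Icc, mem_Icc, mem_Ioc]
      omega
    have hdis : Disjoint ((Icc 1 k).filter Nat.Prime) (P2 k) := by
      rw [disjoint_left]
      intro x hx hx2
      rw [mem_filter, mem_Icc] at hx
      rw [P2, mem_filter, mem_Ioc] at hx2
      omega
    have h4 := hC (20 * k ^ 2) (by omega)
    have h5 := hC k h3'
    rw [e1, sum_union hdis] at h4
    have h6 := (abs_le.1 h4).2
    have h7 := (abs_le.1 h5).1
    have hkR : (3 : ℝ) ≤ k := by exact_mod_cast h3'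
    have hlk : 1 ≤ Real.log k := by
      rw [Real.le_log_iff_exp_le (by linarith)]
      have := Real.exp_one_lt_d9
      linarith
    have h8 : Real.log ((20 * k ^ 2 : ℕ) : ℝ) ≤ 5 * Real.log k := by
      have h20 : Real.log (20 : ℝ) ≤ 3 * Real.log k := by
        rw [show (3 : ℝ) * Real.log k = Real.log ((k : ℝ) ^ 3) by rw [Real.log_pow]; norm_num]
        apply Real.log_le_log (by norm_num)
        have : (3 : ℝ) ^ 3 ≤ (k : ℝ) ^ 3 := pow_le_pow_left₀ (by norm_num) hkR 3
        norm_num at this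
        linarith
      push_cast
      rw [Real.log_mul (by norm_num) (by positivity), Real.log_pow]
      push_cast
      linarith
    have h9 : Real.log (Real.log ((20 * k ^ 2 : ℕ) : ℝ)) ≤ Real.log 5 + Real.log (Real.log k) := by
      rw [← Real.log_mul (by norm_num) (by linarith)]
      apply Real.log_le_log _ h8
      apply Real.log_pos
      have : (1 : ℝ) < ((20 * k ^ 2 : ℕ) : ℝ) := by
        push_cast
        nlinarith
      exact this
    linarith

/-- comparison of binomial coefficients -/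
theorem choose_cmp (k u w : ℕ) (c : ℝ) (hc : 0 < c) (h1 : 2 * (k : ℝ) ≤ c * u) (h2 : c * u ≤ w) :
    (u.choose k : ℝ) ≤ (2 / c) ^ k * w.choose k := by
  have hk0 : (0 : ℝ) ≤ k := Nat.cast_nonneg k
  have hkw : k ≤ w := by
    have : (k : ℝ) ≤ w := by linarith
    exact_mod_cast this
  have h3 := Nat.choose_le_pow_div (α := ℝ) k u
  have h4 := Nat.pow_sub_le_descFactorial w k
  rw [Nat.descFactorial_eq_factorial_mul_choose] at h4
  have h5 : ((w + 1 - k : ℕ) : ℝ) ^ k ≤ k.factorial * w.choose k := by exact_mod_cast h4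
  have h6 : c * u / 2 ≤ ((w + 1 - k : ℕ) : ℝ) := by
    rw [Nat.cast_sub (by omega)]
    push_cast
    linarith
  have hf : (0 : ℝ) < k.factorial := by exact_mod_cast Nat.factorial_pos k
  refine h3.trans ?_
  rw [div_le_iff₀ hf]
  calc (u : ℝ) ^ k = (2 / c) ^ k * (c * u / 2) ^ k := by
        rw [← mul_pow]
        congr 1
        field_simp
    _ ≤ (2 / c) ^ k * ((w + 1 - k : ℕ) : ℝ) ^ k := by
        apply mul_le_mul_of_nonneg_left _ (by positivity)
        exact pow_le_pow_left₀ (by positivity) h6 k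
    _ ≤ (2 / c) ^ k * (k.factorial * w.choose k) :=
        mul_le_mul_of_nonneg_left h5 (by positivity)
    _ = _ := by ring

theorem choose_large (k w Z : ℕ) (hk : 1 ≤ k) (hw : k + k.factorial * Z ≤ w) : Z ≤ w.choose k := by
  have h4 := Nat.pow_sub_le_descFactorial w k
  rw [Nat.descFactorial_eq_factorial_mul_choose] at h4
  have h5 : w + 1 - k ≤ (w + 1 - k) ^ k := Nat.le_self_pow (by omega) _
  have h6 : k.factorial * Z ≤ k.factorial * w.choose k := by
    have : k.factorial * Z ≤ w + 1 - k := by omega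
    exact this.trans (h5.trans h4)
  exact Nat.le_of_mul_le_mul_left h6 (Nat.factorial_pos k)

open Classical in
/-- **Part B.** -/
theorem partB : ∃ C : ℝ, 0 < C ∧ ∀ k : ℕ, 2 ≤ k → ∃ N₀ : ℕ, ∀ V : Finset ℕ, N₀ ≤ V.card →
    ∀ q a : ℕ, 1 ≤ q → (∀ v ∈ V, Nat.Coprime (a + v) q) →
    (((V.powersetCard k).filter Adm).card : ℝ) ≤
      (C * k) ^ k * ((V.powersetCard k).filter (fun H => Adm H ∧ Realised q a H)).card := by
  obtain ⟨C₂, hC₂⟩ := mert2
  set c : ℝ := Real.exp (-(2 * max C₂ 0)) with hc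
  have hc0 : 0 < c := Real.exp_pos _
  have hc1 : c ≤ 1 := by
    rw [hc, Real.exp_le_one_iff]
    have := le_max_right C₂ 0
    linarith
  refine ⟨440 / c, by positivity, fun k hk => ?_⟩
  have hkR : (2 : ℝ) ≤ k := by exact_mod_cast hk
  obtain ⟨NA, hA⟩ := partA k hk
  set NB : ℕ := ⌈((NA : ℝ) + 2 * k) / c⌉₊ with hNB
  set Z : ℕ := ⌈(55 * (k : ℝ)) ^ k⌉₊ * NB ^ k with hZ
  set M : ℕ := ∏ p ∈ P1 k ∪ P2 k, p with hM
  have hP1 : ∀ p ∈ P1 k, p.Prime := fun p hp => (mem_filter.1 hp).2
  have hP2 : ∀ p ∈ P2 k, p.Prime := fun p hp => (mem_filter.1 hp).2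
  have hP12 : ∀ p ∈ P1 k ∪ P2 k, p.Prime := by
    intro p hp
    rw [mem_union] at hp
    exact hp.elim (hP1 p) (hP2 p)
  have hM0 : 0 < M := prod_pos fun p hp => (hP12 p hp).pos
  refine ⟨M * (NA + (k + k.factorial * Z)), fun V hV q a hq haq => ?_⟩
  set F := (V.powersetCard k).filter (fun H => Adm H ∧ Realised q a H) with hF
  -- members of the family
  have hFmem : ∀ (W : Finset ℕ), W ⊆ V → (∀ p ∈ P1 k, ∃ r : ℕ, ∀ v ∈ W, ¬ p ∣ r + v) →
      ∀ H : Finset ℕ, H ⊆ W → H.card = k → Realised q a H → H ∈ F := by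
    intro W hWV hW H hHW hHk hHr
    rw [hF, mem_filter, mem_powersetCard]
    refine ⟨⟨hHW.trans hWV, hHk⟩, fun p hp => ?_, hHr⟩
    rcases le_or_gt p k with h | h
    · obtain ⟨r, hr⟩ := hW p (mem_filter.2 ⟨mem_range.2 (by omega), hp⟩)
      exact ⟨r, fun h' hh' => hr h' (hHW hh')⟩
    · exact miss hp H (by omega)
  have hcase : ∀ p : ℕ, p.Prime → p ≤ 20 * k ^ 2 → p ∈ P1 k ∨ p ∈ P2 k := by
    intro p hp hp2
    rcases le_or_gt p k with h | h
    · exact Or.inl (mem_filter.2 ⟨mem_range.2 (by omega), hp⟩)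
    · exact Or.inr (mem_filter.2 ⟨mem_Ioc.2 ⟨h, hp2⟩, hp⟩)
  -- the family is large
  have hR : (NB : ℝ) ^ k ≤ F.card := by
    obtain ⟨t, ht⟩ := avg (P1 k ∪ P2 k) hP12 V
    set W := V.filter (fun v => ∀ p ∈ P1 k ∪ P2 k, ¬ p ∣ t + v) with hW
    rw [← hM] at ht
    have hWc : NA + (k + k.factorial * Z) ≤ W.card := by
      have h1 : 1 ≤ M.totient := Nat.totient_pos.2 hM0
      have h2 : M * (NA + (k + k.factorial * Z)) ≤ M * W.card :=
        hV.trans ((Nat.le_mul_of_pos_right _ h1).trans ht)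
      exact Nat.le_of_mul_le_mul_left h2 hM0
    have h3 := hA W (by omega) (by
      intro p hp hp2
      refine ⟨t, fun v hv => (mem_filter.1 hv).2 p ?_⟩
      rw [mem_union]
      exact hcase p hp hp2) q a hq (fun v hv => haq v (filter_subset _ _ hv)) F
      (hFmem W (filter_subset _ _) (by
        intro p hp
        exact ⟨t, fun v hv => (mem_filter.1 hv).2 p (mem_union_left _ hp)⟩))
    have h4 : Z ≤ W.card.choose k := choose_large k W.card Z (by omega) (by omega)
    have h5 : (Z : ℝ) ≤ (55 * k) ^ k * F.card := by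
      refine le_trans ?_ h3
      exact_mod_cast h4
    have h6 : (55 * (k : ℝ)) ^ k * (NB : ℝ) ^ k ≤ Z := by
      rw [hZ]
      push_cast
      exact mul_le_mul_of_nonneg_right (Nat.le_ceil _) (by positivity)
    exact le_of_mul_le_mul_left (h6.trans h5) (by positivity)
  set G : ℝ := (110 * k / c) ^ k with hG
  have hG1 : 1 ≤ G := by
    apply one_le_pow₀
    rw [le_div_iff₀ hc0]
    linarith
  have hR0 : (0 : ℝ) ≤ F.card := Nat.cast_nonneg _
  -- one class
  have hone : ∀ s : ℕ, ((V.filter (fun v => ∀ p ∈ P1 k, ¬ p ∣ s + v)).card.choose k : ℝ) ≤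
      G * F.card := by
    intro s
    set U := V.filter (fun v => ∀ p ∈ P1 k, ¬ p ∣ s + v) with hU
    rcases lt_or_ge U.card NB with h | h
    · have h1 : (U.card.choose k : ℝ) ≤ (NB : ℝ) ^ k := by
        have h2 : U.card.choose k ≤ NB ^ k :=
          (Nat.choose_le_pow U.card k).trans (Nat.pow_le_pow_left h.le k)
        exact_mod_cast h2
      refine h1.trans (hR.trans ?_)
      nlinarith
    · obtain ⟨t, ht⟩ := avg (P2 k) hP2 U
      set W := U.filter (fun v => ∀ p ∈ P2 k, ¬ p ∣ t + v) with hW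
      set M' := ∏ p ∈ P2 k, p with hM'
      have hM'0 : (0 : ℝ) < M' := by
        have : 0 < M' := prod_pos fun p hp => (hP2 p hp).pos
        exact_mod_cast this
      have hcM : c * M' ≤ (M'.totient : ℝ) := by
        refine le_trans ?_ (tot_low (P2 k) hP2)
        apply mul_le_mul_of_nonneg_right _ hM'0.le
        rw [hc]
        apply Real.exp_le_exp.2
        have h1 := hC₂ k hk
        have h2 := le_max_left C₂ 0
        linarith
      have hWU : c * U.card ≤ (W.card : ℝ) := by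
        have h1 : (U.card : ℝ) * M'.totient ≤ M' * W.card := by exact_mod_cast ht
        have h2 : (c * U.card) * M' ≤ W.card * M' := by
          have h3 : (U.card : ℝ) * (c * M') ≤ U.card * M'.totient :=
            mul_le_mul_of_nonneg_left hcM (Nat.cast_nonneg _)
          linarith
        exact le_of_mul_le_mul_right h2 hM'0
      have hNBR : ((NA : ℝ) + 2 * k) ≤ c * U.card := by
        have h0 : ((NA : ℝ) + 2 * k) / c ≤ NB := Nat.le_ceil _
        have h00 : (NB : ℝ) ≤ U.card := Nat.cast_le.2 h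
        have h1 : ((NA : ℝ) + 2 * k) / c ≤ U.card := h0.trans h00
        rw [div_le_iff₀ hc0] at h1
        linarith
      have hNA0 : (0 : ℝ) ≤ NA := Nat.cast_nonneg _
      have h1 := choose_cmp k U.card W.card c hc0 (by linarith) hWU
      have hNAW : NA ≤ W.card := by
        have : (NA : ℝ) ≤ W.card := by linarith
        exact_mod_cast this
      have h2 := hA W hNAW (by
        intro p hp hp2
        rcases hcase p hp hp2 with h3 | h3
        · exact ⟨s, fun v hv => (mem_filter.1 (mem_filter.1 hv).1).2 p h3⟩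
        · exact ⟨t, fun v hv => (mem_filter.1 hv).2 p h3⟩) q a hq
        (fun v hv => haq v (filter_subset _ _ (filter_subset _ _ hv))) F
        (hFmem W ((filter_subset _ _).trans (filter_subset _ _)) (by
          intro p hp
          exact ⟨s, fun v hv => (mem_filter.1 (mem_filter.1 hv).1).2 p hp⟩))
      refine h1.trans ?_
      calc (2 / c) ^ k * (W.card.choose k : ℝ) ≤ (2 / c) ^ k * ((55 * k) ^ k * F.card) :=
            mul_le_mul_of_nonneg_left h2 (by positivity)
        _ = G * F.card := by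
            rw [hG, ← mul_assoc, ← mul_pow]
            congr 2
            ring
  -- every admissible set is in one of the classes
  set m := ∏ p ∈ P1 k, p with hm
  have hm4 : m ≤ 4 ^ k := primorial_le_four_pow k
  have hcover : (V.powersetCard k).filter Adm ⊆ (range m).biUnion (fun s =>
      (V.filter (fun v => ∀ p ∈ P1 k, ¬ p ∣ s + v)).powersetCard k) := by
    intro H hH
    rw [mem_filter, mem_powersetCard] at hH
    obtain ⟨⟨hHV, hHk⟩, hHa⟩ := hH
    set r : ℕ → ℕ := fun p => if hp : p.Prime then (hHa p hp).choose else 0 with hr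
    have hr' : ∀ p, p.Prime → ∀ h ∈ H, ¬ p ∣ r p + h := by
      intro p hp
      simp only [hr]
      rw [dif_pos hp]
      exact (hHa p hp).choose_spec
    have hs0 : ∀ i ∈ P1 k, (fun p : ℕ => p) i ≠ 0 := fun i hi => (hP1 i hi).ne_zero
    have hpp : Set.Pairwise (P1 k : Set ℕ) (Function.onFun Nat.Coprime (fun p : ℕ => p)) := by
      intro p hp p' hp' hne
      exact (Nat.coprime_primes (hP1 p hp) (hP1 p' hp')).2 hne
    have h1 := (Nat.chineseRemainderOfFinset r (fun p => p) (P1 k) hs0 hpp).2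
    have h2 := Nat.chineseRemainderOfFinset_lt_prod r (fun p => p) hs0 hpp
    set s : ℕ := (Nat.chineseRemainderOfFinset r (fun p => p) (P1 k) hs0 hpp : ℕ) with hsd
    rw [mem_biUnion]
    refine ⟨s, mem_range.2 h2, ?_⟩
    rw [mem_powersetCard]
    refine ⟨fun h hh => ?_, hHk⟩
    rw [mem_filter]
    refine ⟨hHV hh, fun p hp hd => hr' p (hP1 p hp) h hh ?_⟩
    have h3 : s ≡ r p [MOD p] := h1 p hp
    exact ((Nat.ModEq.add_right h h3).dvd_iff (dvd_refl p)).1 hd
  have h1 : (((V.powersetCard k).filter Adm).card : ℝ) ≤ ∑ s ∈ range m,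
      ((V.filter (fun v => ∀ p ∈ P1 k, ¬ p ∣ s + v)).card.choose k : ℝ) := by
    have h2 := (card_le_card hcover).trans card_biUnion_le
    simp only [card_powersetCard] at h2
    exact_mod_cast h2
  refine h1.trans ?_
  have h2 := sum_le_card_nsmul (range m) (fun s =>
    ((V.filter (fun v => ∀ p ∈ P1 k, ¬ p ∣ s + v)).card.choose k : ℝ)) (G * F.card)
    (fun s _ => hone s)
  rw [card_range, nsmul_eq_mul] at h2
  refine h2.trans ?_
  have h3 : (m : ℝ) ≤ 4 ^ k := by exact_mod_cast hm4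
  have h4 : (m : ℝ) * (G * F.card) ≤ 4 ^ k * (G * F.card) :=
    mul_le_mul_of_nonneg_right h3 (by positivity)
  refine h4.trans (le_of_eq ?_)
  rw [hG, ← mul_assoc, ← mul_pow]
  congr 2
  ring

end Pool.Agent.H35_PP
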